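import Pool.Agent.H49.FOS.S1

set_option autoImplicit false

namespace Pool.FOS

open MvPolynomial

namespace H61

variable {M L : Type} [Fintype M] [Fintype L]

omit [Fintype M] in
lemma chain (φ : L → MvPolynomial M ℂ) (j : M) (p : MvPolynomial L ℂ) :
    pderiv j (aeval φ p) = ∑ l, aeval φ (pderiv l p) * pderiv j (φ l) := by
  classical
  induction p using MvPolynomial.induction_on with
  | C a => simp [MvPolynomial.algebraMap_eq]
  | add p q hp hq => simp only [map_add, hp, hq, add_mul, Finset.sum_add_distrib]
  | mul_X p i hp =>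
    have e1 : ∀ l, aeval φ (pderiv l (p * X i)) * pderiv j (φ l) =
        aeval φ (pderiv l p) * pderiv j (φ l) * φ i +
          aeval φ p * (aeval φ (pderiv l (X i : MvPolynomial L ℂ)) * pderiv j (φ l)) := by
      intro l
      rw [pderiv_mul, map_add, map_mul, map_mul, aeval_X]
      ring
    have e2 : ∑ l, aeval φ (pderiv l (X i : MvPolynomial L ℂ)) * pderiv j (φ l) =
        pderiv j (φ i) := by
      rw [Finset.sum_eq_single i]
      · rw [pderiv_X_self, map_one, one_mul]
      · intro l _ hl
        rw [pderiv_X_of_ne (Ne.symm hl), map_zero, zero_mul]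
      · intro h
        exact absurd (Finset.mem_univ i) h
    rw [Finset.sum_congr rfl fun l _ => e1 l, Finset.sum_add_distrib, ← Finset.sum_mul,
      ← Finset.mul_sum, e2, map_mul, aeval_X, pderiv_mul, hp]

omit [Fintype L] in
lemma degree_pderiv (l : L) (p : MvPolynomial L ℂ) (n : ℕ) (h : p.totalDegree ≤ n + 1) :
    (pderiv l p).totalDegree ≤ n := by
  classical
  refine Finset.sup_le fun m hm => ?_
  rw [mem_support_iff, coeff_pderiv] at hm
  have hm' : m + Finsupp.single l 1 ∈ p.support := mem_support_iff.2 (left_ne_zero_of_mul hm)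
  have h1 := (le_totalDegree hm').trans h
  rw [Finsupp.sum_add_index (by simp) (by simp), Finsupp.sum_single_index rfl] at h1
  omega

omit [Fintype M] in
lemma eq_zero_of_pderiv (φ : L → MvPolynomial M ℂ) (p : MvPolynomial L ℂ)
    (h0 : ∀ l, pderiv l p = 0) (h : aeval φ p = 0) : p = 0 := by
  classical
  have hp : p = C (coeff 0 p) := by
    ext m
    by_cases hm : m = 0
    · simp [hm]
    · obtain ⟨l, hl⟩ : ∃ l, m l ≠ 0 := by
        by_contra hcon
        push Not at hcon
        exact hm (Finsupp.ext hcon)
      rw [coeff_C, if_neg (fun e => hm e.symm)]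
      have h1 := coeff_pderiv (i := l) p (m - Finsupp.single l 1)
      rw [h0 l, coeff_zero, tsub_add_cancel_of_le
        (Finsupp.single_le_iff.2 (Nat.one_le_iff_ne_zero.2 hl))] at h1
      rcases mul_eq_zero.1 h1.symm with h2 | h2
      · exact h2
      · exact absurd h2 (Nat.cast_add_one_ne_zero _)
  rw [hp] at h ⊢
  rw [aeval_C, MvPolynomial.algebraMap_eq, C_eq_zero] at h
  rw [h, C_0]

end H61

open H61 in
theorem t_jac : JACStmt := by
  classical
  intro M L _ _ φ u hu
  -- a right inverse of the Jacobian matrix at `u`
  choose v hv using fun l0 : L => hu (Pi.single l0 1)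
  let J : Matrix L M (MvPolynomial M ℂ) := Matrix.of fun l j => pderiv j (φ l)
  let V : Matrix M L (MvPolynomial M ℂ) := Matrix.of fun j l => C (v l j)
  have hdet : (J * V).det ≠ 0 := by
    intro h
    have h1 : eval u (J * V).det = 1 := by
      rw [RingHom.map_det]
      have : (eval u).mapMatrix (J * V) = 1 := by
        ext l l0
        simp only [RingHom.mapMatrix_apply, Matrix.map_apply, Matrix.mul_apply, map_sum, map_mul,
          J, V, Matrix.of_apply, eval_C]
        have := hv l0 l
        rw [Matrix.one_apply, Pi.single_apply] at *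
        rw [← this]
        exact Finset.sum_congr rfl fun j _ => mul_comm _ _
      rw [this, Matrix.det_one]
    rw [h, map_zero] at h1
    exact zero_ne_one h1
  have key : ∀ p : MvPolynomial L ℂ, aeval φ p = 0 → ∀ l, aeval φ (pderiv l p) = 0 := by
    intro p hp
    have hq : Matrix.vecMul (fun l => aeval φ (pderiv l p)) (J * V) = 0 := by
      rw [← Matrix.vecMul_vecMul]
      have : Matrix.vecMul (fun l => aeval φ (pderiv l p)) J = 0 := by
        ext1 j
        have h1 := chain φ j p
        rw [hp, map_zero] at h1
        simp only [Matrix.vecMul, dotProduct, J, Matrix.of_apply, Pi.zero_apply]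
        exact h1.symm
      rw [this, Matrix.zero_vecMul]
    have := Matrix.eq_zero_of_vecMul_eq_zero hdet hq
    intro l
    exact congrFun this l
  have main : ∀ n : ℕ, ∀ p : MvPolynomial L ℂ, p.totalDegree ≤ n → aeval φ p = 0 → p = 0 := by
    intro n
    induction n with
    | zero =>
      intro p hp h
      rw [totalDegree_eq_zero_iff_eq_C.1 (Nat.le_zero.1 hp)] at h ⊢
      rw [aeval_C, MvPolynomial.algebraMap_eq, C_eq_zero] at h
      rw [h, C_0]
    | succ n ih =>
      intro p hp h
      exact eq_zero_of_pderiv φ p (fun l => ih _ (degree_pderiv l p n hp) (key p h l)) h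
  rw [algebraicIndependent_iff]
  intro p hp
  exact main _ p le_rfl hp

end Pool.FOS
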