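import Pool.Agent.H49.FOS.S1

set_option autoImplicit false

namespace Pool.FOS

open MvPolynomial

theorem t_van (hDES : DESStmt) (hRDM : RDMStmt) (hLEV : LEVStmt) (hORD : ORDStmt)
    (hCRD : CRDStmt) (hHLV : HLVStmt) : VANStmt := by
  classical
  intro p N m D s hN hD hh0 A hA hmult
  obtain ⟨T, c, hc, hAT⟩ := hRDM p N D hN A hA
  by_contra hne
  -- the lowest level
  have hex : ∃ r : ℕ, ∃ α ∈ T, c α ≠ 0 ∧ α.degree = r := by
    by_contra hcon
    push Not at hcon
    apply hne
    rw [hAT]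
    refine Finset.sum_eq_zero fun α hα => ?_
    have : c α = 0 := by
      by_contra h
      exact hcon _ α hα h rfl
    rw [this, mul_zero]
  set r := Nat.find hex with hr
  obtain ⟨α, hα, hcα, hdeg⟩ := Nat.find_spec hex
  have hlow : ∀ β ∈ T, β.degree < r → c β = 0 := by
    intro β hβ hlt
    by_contra h
    exact Nat.find_min hex hlt ⟨β, hβ, h, rfl⟩
  obtain ⟨a, ha⟩ : (c α).support.Nonempty := by
    rw [Finset.nonempty_iff_ne_empty]
    intro h
    exact hcα (support_eq_empty.1 h)
  have h1 := (hc α a ha).2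
  rw [hdeg] at h1
  have hrD : r * N ≤ D := by
    have : N * r ≤ D := by rw [hr]; omega
    rwa [mul_comm] at this
  have hrm : r < m := by
    by_contra h
    have : m * N ≤ r * N := Nat.mul_le_mul_right N (not_lt.1 h)
    omega
  have hcoef : coeff α (sg p N A) = rs p N (c α) := by
    rw [hAT]
    exact hLEV p N r T c hlow α hα hdeg
  obtain ⟨hcard, hzero⟩ := hCRD p N (D - r * N) (c α) (by
    intro b hb
    refine ⟨(hc α b hb).1, ?_⟩
    have h2 := (hc α b hb).2
    rw [hdeg, ← hr, mul_comm] at h2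
    omega)
  apply hcα
  apply hzero
  refine hDES s (m - r) (fun i => (i : ℕ) + 1) (fun i => by positivity) ?_ (rs p N (c α)) ?_
    (hcard.trans (hHLV p N m D s r hD hh0 hrm hrD))
  · intro i j hij
    have : ((i : ℕ) : ℝ) = ((j : ℕ) : ℝ) := by simpa using hij
    exact Fin.ext (by exact_mod_cast this)
  · intro i
    have h2 := hORD p N m ((i : ℕ) + 1) A (hmult i) α
    rw [hcoef, hdeg, ← hr] at h2
    have e : (((((i : ℕ) : ℝ) + 1 : ℝ)) : ℂ) = ((i : ℕ) : ℂ) + 1 := by push_cast; rfl
    rw [e]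
    exact h2

end Pool.FOS
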